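import Pool.Agent.Y966.SY.Words

/-!
The natural densities of the residue classes modulo `3 ^ n` of the `n`-th Syracuse iterates, and their
moments.
-/

set_option autoImplicit false
set_option linter.unusedVariables false

namespace Pool.Agent.Y966.SY

open Finset Filter Topology Pool.Agent.H320R2.PD Pool.Agent.H377R2.NK

/-- the parameter `1/2` is admissible -/
theorem zc_half : Pool.Agent.Y966.NQ.ZC 3 (1 / 2) := ⟨by norm_num, by norm_num, by norm_num⟩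

instance : Fact (Pool.Agent.Y966.NQ.ZC 3 (1 / 2)) := ⟨zc_half⟩

theorem odd3 : Odd 3 := by decide

/-- the letter cap removed -/
noncomputable def D (n : ℕ) (x : ℤ) : ℝ := ⨆ A : ℕ, Pool.Agent.Y966.NQ.DD 3 (1 / 2) A n x

theorem D_mono (n : ℕ) (x : ℤ) : Monotone fun A : ℕ => Pool.Agent.Y966.NQ.DD 3 (1 / 2) A n x :=
  fun _ _ h => Pool.Agent.Y966.NQ.DD_mono n x h

theorem D_bdd (n : ℕ) (x : ℤ) : BddAbove (Set.range fun A : ℕ => Pool.Agent.Y966.NQ.DD 3 (1 / 2) A n x) := by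
  refine ⟨((3 : ℕ) : ℝ) ^ n, ?_⟩
  rintro _ ⟨A, rfl⟩
  exact Pool.Agent.Y966.NQ.DD_le odd3 A n x

theorem D_tendsto (n : ℕ) (x : ℤ) :
    Tendsto (fun A : ℕ => Pool.Agent.Y966.NQ.DD 3 (1 / 2) A n x) atTop (𝓝 (D n x)) :=
  tendsto_atTop_ciSup (D_mono n x) (D_bdd n x)

theorem le_D (A n : ℕ) (x : ℤ) : Pool.Agent.Y966.NQ.DD 3 (1 / 2) A n x ≤ D n x := le_ciSup (D_bdd n x) A

theorem D_nonneg (n : ℕ) (x : ℤ) : 0 ≤ D n x :=
  (Pool.Agent.Y966.NQ.DD_nonneg 0 n x).trans (le_D 0 n x)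

theorem D_total (n : ℕ) : ∑ x ∈ range (3 ^ n), D n (x : ℤ) = 3 ^ n := by
  have h1 : Tendsto (fun A : ℕ => ∑ x ∈ range (3 ^ n), Pool.Agent.Y966.NQ.DD 3 (1 / 2) A n (x : ℤ)) atTop
      (𝓝 (∑ x ∈ range (3 ^ n), D n (x : ℤ))) := tendsto_finsetSum _ fun x _ => D_tendsto n x
  have h2 : (fun A : ℕ => ∑ x ∈ range (3 ^ n), Pool.Agent.Y966.NQ.DD 3 (1 / 2) A n (x : ℤ)) =
      fun A : ℕ => (((3 : ℕ) : ℝ) * (1 - (1 / 2 : ℝ) ^ A)) ^ n := by
    funext A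
    exact Pool.Agent.Y966.NQ.DD_total (p := 3) (z := 1 / 2) odd3 A n
  rw [h2] at h1
  have h3 : Tendsto (fun A : ℕ => (((3 : ℕ) : ℝ) * (1 - (1 / 2 : ℝ) ^ A)) ^ n) atTop
      (𝓝 ((((3 : ℕ) : ℝ) * (1 - 0)) ^ n)) := by
    apply Tendsto.pow
    apply Tendsto.const_mul
    apply Tendsto.const_sub
    exact tendsto_pow_atTop_nhds_zero_of_lt_one (by norm_num) (by norm_num)
  have := tendsto_nhds_unique h1 h3
  rw [this]
  norm_num

/-- the rate of the moment of order `q` -/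
theorem L1_half {q : ℕ} (hq : 2 ≤ q) : max (Real.log (3 : ℕ)) (Pool.Agent.Y966.NQ.L1 3 (1 / 2) q) =
    Real.log (3 ^ q / (2 ^ q - 1)) := by
  have h2q : (4 : ℝ) ≤ 2 ^ q := by
    calc (4 : ℝ) = 2 ^ 2 := by norm_num
      _ ≤ 2 ^ q := pow_le_pow_right₀ (by norm_num) hq
  have e1 : Pool.Agent.Y966.NQ.L1 3 (1 / 2) q = Real.log (3 ^ q / (2 ^ q - 1)) := by
    unfold Pool.Agent.Y966.NQ.L1
    congr 1
    have h1 : (((3 : ℕ) : ℝ) * (1 - 1 / 2)) ^ q = 3 ^ q / 2 ^ q := by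
      rw [← div_pow]
      norm_num
    have h3 : (1 - (1 / 2 : ℝ) ^ q) = (2 ^ q - 1) / 2 ^ q := by
      rw [one_div, inv_pow]
      field_simp
    rw [h1, h3, div_div_div_cancel_right₀ (by positivity)]
  rw [e1]
  apply max_eq_right
  apply Real.log_le_log (by norm_num)
  rw [le_div_iff₀ (by linarith)]
  -- `3 (2^q - 1) ≤ 3^q`
  have : ∀ q : ℕ, 2 ≤ q → ((3 : ℕ) : ℝ) * (2 ^ q - 1) ≤ 3 ^ q := by
    intro q hq
    induction q, hq using Nat.le_induction with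
    | base => norm_num
    | succ q hq ih =>
      rw [pow_succ, pow_succ]
      have h4 : (2 : ℝ) ≤ 2 ^ q := by
        calc (2 : ℝ) = 2 ^ 1 := by norm_num
          _ ≤ 2 ^ q := pow_le_pow_right₀ (by norm_num) (by omega)
      push_cast at ih ⊢
      linarith
  exact this q hq

theorem moment_upper {q : ℕ} (hq : 2 ≤ q) {ε : ℝ} (hε : 0 < ε) : ∃ C : ℝ, 0 < C ∧ ∀ n : ℕ,
    ∑ x ∈ range (3 ^ n), D n (x : ℤ) ^ q ≤ C * Real.exp (ε * n) * (3 ^ q / (2 ^ q - 1)) ^ n := by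
  obtain ⟨C, hC, hup⟩ := Pool.Agent.Y966.NQ.Zq_upper' (p := 3) (z := 1 / 2) (Or.inl rfl) hq hε
  refine ⟨C, hC, fun n => ?_⟩
  have h1 : Tendsto (fun A : ℕ => Pool.Agent.Y966.NQ.Zq 3 (1 / 2) A n q) atTop
      (𝓝 (∑ x ∈ range (3 ^ n), D n (x : ℤ) ^ q)) := by
    unfold Pool.Agent.Y966.NQ.Zq
    exact tendsto_finsetSum _ fun x _ => (D_tendsto n x).pow q
  refine le_of_tendsto h1 (Eventually.of_forall fun A => (hup n A).trans (le_of_eq ?_))
  have h2q : (4 : ℝ) ≤ 2 ^ q := by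
    calc (4 : ℝ) = 2 ^ 2 := by norm_num
      _ ≤ 2 ^ q := pow_le_pow_right₀ (by norm_num) hq
  have hpos : (0 : ℝ) < 3 ^ q / (2 ^ q - 1) := div_pos (by positivity) (by linarith)
  rw [L1_half hq, add_mul, Real.exp_add, mul_comm (Real.log _) (n : ℝ), Real.exp_nat_mul,
    Real.exp_log hpos]
  ring

theorem sum_pow_le' {ι : Type*} (s : Finset ι) (f : ι → ℝ) (hf : ∀ i ∈ s, 0 ≤ f i) {q : ℕ} (hq : 1 ≤ q) :
    ∑ i ∈ s, f i ^ q ≤ (∑ i ∈ s, f i) ^ q := by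
  obtain ⟨q', rfl⟩ : ∃ q', q = q' + 1 := ⟨q - 1, by omega⟩
  rw [pow_succ (∑ i ∈ s, f i), mul_sum]
  refine sum_le_sum fun i hi => ?_
  rw [pow_succ]
  apply mul_le_mul_of_nonneg_right _ (hf i hi)
  exact pow_le_pow_left₀ (hf i hi) (single_le_sum hf hi) _

theorem moment_lower {q : ℕ} (hq : 1 ≤ q) (n : ℕ) :
    (3 ^ q / (2 ^ q - 1) : ℝ) ^ n ≤ ∑ x ∈ range (3 ^ n), D n (x : ℤ) ^ q := by
  classical
  have h1 : Tendsto (fun A : ℕ => Pool.Agent.Y966.NQ.Zq 3 (1 / 2) A n q) atTop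
      (𝓝 (∑ x ∈ range (3 ^ n), D n (x : ℤ) ^ q)) := by
    unfold Pool.Agent.Y966.NQ.Zq
    exact tendsto_finsetSum _ fun x _ => (D_tendsto n x).pow q
  have h2 : ∀ A : ℕ, (∑ e ∈ Icc 1 A, (Pool.Agent.Y966.NQ.th 3 (1 / 2) * (1 / 2) ^ e) ^ q) ^ n ≤
      Pool.Agent.Y966.NQ.Zq 3 (1 / 2) A n q := by
    intro A
    rw [← Pool.Agent.Y966.NQ.Law2.sum_zw_pow (p := 3) (z := 1 / 2)]
    unfold Pool.Agent.Y966.NQ.Zq
    have h3 : ∀ x ∈ range (3 ^ n), ∑ w ∈ VW 3 A n (x : ℤ), Pool.Agent.Y966.NQ.zw 3 (1 / 2) w ^ q ≤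
        Pool.Agent.Y966.NQ.DD 3 (1 / 2) A n (x : ℤ) ^ q := by
      intro x _
      unfold Pool.Agent.Y966.NQ.DD
      exact sum_pow_le' _ _ (fun w _ => Pool.Agent.Y966.NQ.zw_nonneg w) hq
    refine le_trans (le_of_eq ?_) (sum_le_sum h3)
    have e1 : ∀ x : ℕ, ∑ w ∈ VW 3 A n (x : ℤ), Pool.Agent.Y966.NQ.zw 3 (1 / 2) w ^ q =
        ∑ w ∈ FW A n, (Pool.Agent.Y966.NQ.zw 3 (1 / 2) w ^ q *
          if ((3 : ℕ) : ℤ) ^ n ∣ 2 ^ w.sum * (x : ℤ) - Wp 3 w then (1 : ℝ) else 0) := by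
      intro x
      unfold VW
      rw [sum_filter]
      refine sum_congr rfl fun w _ => ?_
      split_ifs <;> simp
    simp only [e1]
    rw [sum_comm]
    refine sum_congr rfl fun w _ => ?_
    rw [← mul_sum, U4_count odd3, mul_one]
  have hz1 : (1 / 2 : ℝ) ^ q < 1 := pow_lt_one₀ (by norm_num) (by norm_num) (by omega)
  have key : ∀ A : ℕ, (∑ e ∈ Icc 1 A, (Pool.Agent.Y966.NQ.th 3 (1 / 2) * (1 / 2) ^ e) ^ q) =
      3 ^ q / (2 ^ q - 1) * (1 - ((1 / 2 : ℝ) ^ q) ^ A) := by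
    have hth : Pool.Agent.Y966.NQ.th 3 (1 / 2) = 3 := by
      unfold Pool.Agent.Y966.NQ.th
      norm_num
    have h2q : (0 : ℝ) < 2 ^ q - 1 := by
      have : (2 : ℝ) ≤ 2 ^ q := by
        calc (2 : ℝ) = 2 ^ 1 := by norm_num
          _ ≤ 2 ^ q := pow_le_pow_right₀ (by norm_num) hq
      linarith
    intro A
    rw [hth]
    induction A with
    | zero => simp
    | succ A ih =>
      rw [sum_Icc_succ_top (by omega), ih]
      have e1 : ((3 : ℝ) * (1 / 2) ^ (A + 1)) ^ q = 3 ^ q * ((1 / 2 : ℝ) ^ q) ^ (A + 1) := by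
        rw [mul_pow, ← pow_mul, ← pow_mul, mul_comm (A + 1) q]
      rw [e1, pow_succ (((1 : ℝ) / 2) ^ q)]
      have e2 : (1 / 2 : ℝ) ^ q = 1 / 2 ^ q := by rw [div_pow, one_pow]
      rw [e2]
      field_simp
      ring
  have h4 : Tendsto (fun A : ℕ => (∑ e ∈ Icc 1 A, (Pool.Agent.Y966.NQ.th 3 (1 / 2) * (1 / 2) ^ e) ^ q) ^ n)
      atTop (𝓝 ((3 ^ q / (2 ^ q - 1) * (1 - 0) : ℝ) ^ n)) := by
    simp only [key]
    apply Tendsto.pow
    apply Tendsto.const_mul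
    apply Tendsto.const_sub
    exact tendsto_pow_atTop_nhds_zero_of_lt_one (by positivity) hz1
  rw [sub_zero, mul_one] at h4
  exact le_of_tendsto_of_tendsto' h4 h1 h2

/-! ### densities -/

theorem class_card_le (a b c : ℤ) (hab : a ≤ b) (M : ℤ) (hM : 0 < M) :
    (((Ico a b).filter (fun N => N ≡ c [ZMOD M])).card : ℝ) ≤ ((b - a : ℤ) : ℝ) / M + 1 := by
  have h := Int.Ico_filter_modEq_card a b hM c
  have hMr : (0 : ℝ) < M := by exact_mod_cast hM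
  have hba : (0 : ℝ) ≤ ((b - a : ℤ) : ℝ) := by exact_mod_cast (by omega : 0 ≤ b - a)
  have h2 : (((Ico a b).filter (fun N => N ≡ c [ZMOD M])).card : ℝ) =
      ((max (⌈((b - c : ℤ) : ℚ) / (M : ℚ)⌉ - ⌈((a - c : ℤ) : ℚ) / (M : ℚ)⌉) 0 : ℤ) : ℝ) := by
    have h' : (((Ico a b).filter (fun N => N ≡ c [ZMOD M])).card : ℤ) =
        max (⌈((b - c : ℤ) : ℚ) / (M : ℚ)⌉ - ⌈((a - c : ℤ) : ℚ) / (M : ℚ)⌉) 0 := by
      rw [h]
      push_cast
      rfl
    exact_mod_cast h'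
  rw [h2]
  have h3 : (((a - c : ℤ) : ℚ) / (M : ℚ)) ≤ ⌈((a - c : ℤ) : ℚ) / (M : ℚ)⌉ := Int.le_ceil _
  have h4 : (⌈((b - c : ℤ) : ℚ) / (M : ℚ)⌉ : ℚ) < ((b - c : ℤ) : ℚ) / (M : ℚ) + 1 := Int.ceil_lt_add_one _
  have h3' : (((a - c : ℤ) : ℝ) / (M : ℝ)) ≤ ((⌈((a - c : ℤ) : ℚ) / (M : ℚ)⌉ : ℤ) : ℝ) := by
    exact_mod_cast h3
  have h4' : ((⌈((b - c : ℤ) : ℚ) / (M : ℚ)⌉ : ℤ) : ℝ) < ((b - c : ℤ) : ℝ) / (M : ℝ) + 1 := by
    exact_mod_cast h4
  push_cast at h3' h4' ⊢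
  have e : ((b : ℝ) - a) / M = (b - c) / M - (a - c) / M := by ring
  apply max_le
  · rw [e]
    linarith
  · have : 0 ≤ ((b : ℝ) - a) / M := by
      push_cast at hba
      positivity
    linarith

/-- all classes together -/
theorem ES_total (n : ℕ) (a b : ℤ) (hab : a ≤ b) :
    ∑ x ∈ range (3 ^ n), ((ES n (x : ℤ) a b).card : ℝ) ≤ ((b - a : ℤ) : ℝ) / 2 + 1 := by
  classical
  have h3 : (0 : ℤ) < 3 ^ n := by positivity
  have h1 : ∑ x ∈ range (3 ^ n), (ES n (x : ℤ) a b).card ≤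
      ((Ico a b).filter (fun N => N ≡ 1 [ZMOD 2])).card := by
    rw [← card_biUnion]
    · apply card_le_card
      intro N hN
      rw [mem_biUnion] at hN
      obtain ⟨x, _, hN⟩ := hN
      rw [ES, mem_filter] at hN
      rw [mem_filter]
      refine ⟨hN.1, ?_⟩
      rw [Int.ModEq]
      omega
    · intro x hx y hy hxy
      rw [Function.onFun, disjoint_left]
      intro N hN hN'
      rw [ES, mem_filter] at hN hN'
      rw [coe_range, Set.mem_Iio] at hx hy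
      apply hxy
      have h4 : (3 : ℤ) ^ n ∣ (x : ℤ) - y := by
        have := dvd_sub hN'.2.2 hN.2.2
        have e : Syr^[n] N - (y : ℤ) - (Syr^[n] N - x) = x - y := by ring
        rwa [e] at this
      have hx' : (x : ℤ) < 3 ^ n := by exact_mod_cast hx
      have hy' : (y : ℤ) < 3 ^ n := by exact_mod_cast hy
      obtain ⟨t, ht⟩ := h4
      have h5 : (3 : ℤ) ^ n * t < 3 ^ n * 1 := by linarith [Int.natCast_nonneg y]
      have h6 : (3 : ℤ) ^ n * (-1) < 3 ^ n * t := by linarith [Int.natCast_nonneg x]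
      have h7 : t < 1 := lt_of_mul_lt_mul_left h5 h3.le
      have h8 : -1 < t := lt_of_mul_lt_mul_left h6 h3.le
      have h9 : t = 0 := by omega
      rw [h9, mul_zero] at ht
      omega
  have h2 := class_card_le a b 1 hab 2 (by norm_num)
  have h1' : (∑ x ∈ range (3 ^ n), ((ES n (x : ℤ) a b).card : ℝ)) ≤
      (((Ico a b).filter (fun N => N ≡ 1 [ZMOD 2])).card : ℝ) := by exact_mod_cast h1
  push_cast at h2 ⊢
  exact h1'.trans h2

/-- the density, uniformly in the interval -/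
theorem ES_dens (n x : ℕ) (hx : x < 3 ^ n) {ε : ℝ} (hε : 0 < ε) : ∃ K : ℝ, ∀ a b : ℤ, a ≤ b →
    |((ES n (x : ℤ) a b).card : ℝ) - D n (x : ℤ) / 3 ^ n * (((b - a : ℤ) : ℝ) / 2)| ≤
      ε * ((b - a : ℤ) : ℝ) + K := by
  classical
  -- a common cap
  have hpos3 : (0 : ℝ) < 3 ^ n := by positivity
  set η : ℝ := ε / 3 ^ n with hη
  have hη0 : 0 < η := by positivity
  have hev : ∀ᶠ A : ℕ in atTop, ∀ y ∈ range (3 ^ n),
      D n (y : ℤ) - η < Pool.Agent.Y966.NQ.DD 3 (1 / 2) A n (y : ℤ) := by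
    rw [Filter.eventually_all_finset]
    intro y _
    exact (D_tendsto n y).eventually (lt_mem_nhds (by linarith))
  obtain ⟨A, hA⟩ := hev.exists
  set K₀ : ℝ := ∑ y ∈ range (3 ^ n), ((VW 3 A n (y : ℤ)).card : ℝ) with hK₀
  have hK₀0 : 0 ≤ K₀ := sum_nonneg fun y _ => Nat.cast_nonneg _
  refine ⟨K₀ + 1, fun a b hab => ?_⟩
  have hba : (0 : ℝ) ≤ ((b - a : ℤ) : ℝ) := by exact_mod_cast (by omega : 0 ≤ b - a)
  set L : ℝ := ((b - a : ℤ) : ℝ) with hL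
  have hlow : ∀ y ∈ range (3 ^ n), D n (y : ℤ) / 3 ^ n * (L / 2) - η / 3 ^ n * (L / 2) -
      ((VW 3 A n (y : ℤ)).card : ℝ) ≤ ((ES n (y : ℤ) a b).card : ℝ) := by
    intro y hy
    refine le_trans ?_ (ES_lower A n (y : ℤ) a b hab)
    rw [← hL]
    have h1 := (hA y hy).le
    have h2 : L / (2 * 3 ^ n) * (D n (y : ℤ) - η) ≤
        L / (2 * 3 ^ n) * Pool.Agent.Y966.NQ.DD 3 (1 / 2) A n (y : ℤ) :=
      mul_le_mul_of_nonneg_left h1 (by positivity)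
    have h3 : L / (2 * 3 ^ n) * (D n (y : ℤ) - η) = D n (y : ℤ) / 3 ^ n * (L / 2) - η / 3 ^ n * (L / 2) := by
      field_simp
    linarith
  have hxm : x ∈ range (3 ^ n) := mem_range.2 hx
  have hηL : η / 3 ^ n * (L / 2) ≤ ε * L := by
    have h2 : (1 : ℝ) ≤ 3 ^ n := one_le_pow₀ (by norm_num)
    have h1 : η / 3 ^ n ≤ ε := by
      rw [hη]
      exact (div_le_self (by positivity) h2).trans (div_le_self hε.le h2)
    calc η / 3 ^ n * (L / 2) ≤ ε * (L / 2) := mul_le_mul_of_nonneg_right h1 (by positivity)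
      _ ≤ ε * L := mul_le_mul_of_nonneg_left (by linarith) hε.le
  rw [abs_le]
  constructor
  · have h1 := hlow x hxm
    have h2 : ((VW 3 A n (x : ℤ)).card : ℝ) ≤ K₀ := by
      rw [hK₀]
      exact single_le_sum (f := fun y : ℕ => ((VW 3 A n (y : ℤ)).card : ℝ)) (fun y _ => Nat.cast_nonneg _) hxm
    linarith
  · have htot := ES_total n a b hab
    rw [← hL] at htot
    have h1 := sum_le_sum (s := (range (3 ^ n)).erase x) fun y hy => hlow y (mem_of_mem_erase hy)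
    rw [sum_sub_distrib, sum_sub_distrib, ← sum_mul, sum_const, nsmul_eq_mul] at h1
    have h2 : ∑ y ∈ (range (3 ^ n)).erase x, D n (y : ℤ) / 3 ^ n = 1 - D n (x : ℤ) / 3 ^ n := by
      have h3 := D_total n
      rw [← sum_div, ← add_sum_erase _ _ hxm] at *
      have h4 : ∑ y ∈ (range (3 ^ n)).erase x, D n (y : ℤ) = 3 ^ n - D n (x : ℤ) := by linarith
      rw [h4]
      field_simp
    have h5 : ∑ y ∈ (range (3 ^ n)).erase x, ((VW 3 A n (y : ℤ)).card : ℝ) ≤ K₀ := by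
      rw [hK₀]
      exact sum_le_sum_of_subset_of_nonneg (erase_subset _ _) fun y _ _ => Nat.cast_nonneg _
    have h6 := add_sum_erase (range (3 ^ n)) (fun y : ℕ => ((ES n (y : ℤ) a b).card : ℝ)) hxm
    rw [← h6] at htot
    rw [h2] at h1
    have h7 : ((((range (3 ^ n)).erase x).card : ℕ) : ℝ) * (η / 3 ^ n * (L / 2)) ≤ ε * L := by
      have h8 : ((((range (3 ^ n)).erase x).card : ℕ) : ℝ) ≤ 3 ^ n := by
        have : ((range (3 ^ n)).erase x).card ≤ 3 ^ n := by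
          refine (card_erase_le).trans ?_
          rw [card_range]
        exact_mod_cast this
      have h9 : 0 ≤ η / 3 ^ n * (L / 2) := by positivity
      calc ((((range (3 ^ n)).erase x).card : ℕ) : ℝ) * (η / 3 ^ n * (L / 2))
          ≤ 3 ^ n * (η / 3 ^ n * (L / 2)) := mul_le_mul_of_nonneg_right h8 h9
        _ = η * (L / 2) := by field_simp
        _ ≤ ε * L := by
            have : η ≤ ε := by
              rw [hη]
              exact div_le_self hε.le (one_le_pow₀ (by norm_num))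
            calc η * (L / 2) ≤ ε * (L / 2) := mul_le_mul_of_nonneg_right this (by positivity)
              _ ≤ ε * L := mul_le_mul_of_nonneg_left (by linarith) hε.le
    have h10 : (1 - D n (x : ℤ) / 3 ^ n) * (L / 2) = L / 2 - D n (x : ℤ) / 3 ^ n * (L / 2) := by ring
    rw [h10] at h1
    linarith

end Pool.Agent.Y966.SY
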