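import Pool.Agent.Y966.SY.Four

/-!
Densities of the classes of the later iterates.
-/

set_option autoImplicit false
set_option linter.unusedVariables false

namespace Pool.Agent.Y966.SY

open Finset Filter Topology

theorem DD_lift_eq (A i l : ℕ) (x : ℤ) :
    ∑ v ∈ range (3 ^ l), Pool.Agent.Y966.NQ.DD 3 (1 / 2) A (i + l) (x + ((3 : ℕ) : ℤ) ^ i * v) =
      (((3 : ℕ) : ℝ) * (1 - (1 / 2 : ℝ) ^ A)) ^ l * Pool.Agent.Y966.NQ.DD 3 (1 / 2) A i x := by
  simp only [Pool.Agent.Y966.NQ.U4_DD_eq odd3]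
  rw [sum_comm]
  have h1 : ∀ w ∈ Pool.Agent.H377R2.NK.VW 3 A i x, ∑ v ∈ range (3 ^ l),
      Pool.Agent.Y966.NQ.zw 3 (1 / 2) w *
        Pool.Agent.Y966.NQ.DD 3 (1 / 2) A l (Pool.Agent.H377R2.NK.en 3 w x + 2 ^ w.sum * (v : ℤ)) =
      (((3 : ℕ) : ℝ) * (1 - (1 / 2 : ℝ) ^ A)) ^ l * Pool.Agent.Y966.NQ.zw 3 (1 / 2) w := by
    intro w _
    rw [← mul_sum, mul_comm]
    have h := Pool.Agent.Y966.NQ.U4_sum_aff (p := 3) (z := 1 / 2) odd3 A l w.sum
      (Pool.Agent.H377R2.NK.en 3 w x) (fun y => y)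
    rw [h, Pool.Agent.Y966.NQ.DD_total (p := 3) (z := 1 / 2) odd3]
  rw [sum_congr rfl h1, ← mul_sum]
  rfl

theorem dens_sum (n l x : ℕ) : ∑ v ∈ range (3 ^ l), dens (n + l) (x + 3 ^ n * v) = dens n x := by
  have h1 : Tendsto (fun A : ℕ => ∑ v ∈ range (3 ^ l),
      Pool.Agent.Y966.NQ.DD 3 (1 / 2) A (n + l) ((x : ℤ) + 3 ^ n * v)) atTop
      (𝓝 (∑ v ∈ range (3 ^ l), D (n + l) ((x : ℤ) + 3 ^ n * v))) :=
    tendsto_finsetSum _ fun v _ => D_tendsto _ _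
  have h2 : (fun A : ℕ => ∑ v ∈ range (3 ^ l),
      Pool.Agent.Y966.NQ.DD 3 (1 / 2) A (n + l) ((x : ℤ) + 3 ^ n * v)) =
      fun A : ℕ => (((3 : ℕ) : ℝ) * (1 - (1 / 2 : ℝ) ^ A)) ^ l *
        Pool.Agent.Y966.NQ.DD 3 (1 / 2) A n (x : ℤ) := by
    funext A
    have := DD_lift_eq A n l (x : ℤ)
    push_cast at this ⊢
    rw [this]
  rw [h2] at h1
  have h3 : Tendsto (fun A : ℕ => (((3 : ℕ) : ℝ) * (1 - (1 / 2 : ℝ) ^ A)) ^ l *
        Pool.Agent.Y966.NQ.DD 3 (1 / 2) A n (x : ℤ)) atTop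
      (𝓝 ((((3 : ℕ) : ℝ) * (1 - 0)) ^ l * D n (x : ℤ))) := by
    apply Tendsto.mul _ (D_tendsto n x)
    apply Tendsto.pow
    apply Tendsto.const_mul
    apply Tendsto.const_sub
    exact tendsto_pow_atTop_nhds_zero_of_lt_one (by norm_num) (by norm_num)
  have h4 := tendsto_nhds_unique h1 h3
  unfold dens
  rw [← sum_div]
  push_cast
  push_cast at h4
  rw [h4, pow_add]
  field_simp
  ring

/-- the number of the odd integers of an interval whose `k`-th iterate is `≡ x` modulo `3 ^ n` -/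
theorem count_eq (n l x : ℕ) (a b : ℤ) :
    ((Ico a b).filter fun N => N % 2 = 1 ∧ (3 : ℤ) ^ n ∣ Syr^[n + l] N - x).card =
      ∑ v ∈ range (3 ^ l), (ES (n + l) ((x + 3 ^ n * v : ℕ) : ℤ) a b).card := by
  classical
  rw [← card_biUnion]
  · congr 1
    ext N
    rw [mem_filter, mem_biUnion]
    constructor
    · rintro ⟨h1, h2, h3⟩
      obtain ⟨t, ht⟩ := h3
      have h3l : (0 : ℤ) < 3 ^ l := by positivity
      refine ⟨(t % 3 ^ l).toNat, ?_, ?_⟩
      · rw [mem_range]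
        have g1 := Int.emod_nonneg t h3l.ne'
        have g2 := Int.emod_lt_of_pos t h3l
        have : (((t % 3 ^ l).toNat : ℕ) : ℤ) < ((3 ^ l : ℕ) : ℤ) := by
          push_cast
          omega
        exact_mod_cast this
      · rw [ES, mem_filter]
        refine ⟨h1, h2, ?_⟩
        have g1 := Int.emod_nonneg t h3l.ne'
        push_cast
        rw [Int.toNat_of_nonneg g1, pow_add]
        have g3 := Int.emod_add_mul_ediv t (3 ^ l)
        refine ⟨t / 3 ^ l, ?_⟩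
        have : Syr^[n + l] N - ((x : ℤ) + 3 ^ n * (t % 3 ^ l)) = 3 ^ n * (t - t % 3 ^ l) := by
          linear_combination ht
        rw [this]
        have g4 : t - t % 3 ^ l = 3 ^ l * (t / 3 ^ l) := by linarith
        rw [g4]
        ring
    · rintro ⟨v, _, hN⟩
      rw [ES, mem_filter] at hN
      obtain ⟨h1, h2, h3⟩ := hN
      refine ⟨h1, h2, ?_⟩
      push_cast at h3
      have h4 : (3 : ℤ) ^ n ∣ Syr^[n + l] N - (x + 3 ^ n * v) :=
        (Dvd.intro _ (pow_add 3 n l).symm).trans h3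
      have h5 := dvd_add h4 (Dvd.intro _ rfl : (3 : ℤ) ^ n ∣ 3 ^ n * v)
      have e : Syr^[n + l] N - (x + 3 ^ n * v) + 3 ^ n * v = Syr^[n + l] N - x := by ring
      rwa [e] at h5
  · intro v hv w hw hvw
    rw [Function.onFun, disjoint_left]
    intro N hN hN'
    rw [ES, mem_filter] at hN hN'
    rw [coe_range, Set.mem_Iio] at hv hw
    apply hvw
    have h3n : (0 : ℤ) < 3 ^ n := by positivity
    have h3l : (0 : ℤ) < 3 ^ l := by positivity
    have h1 := dvd_sub hN'.2.2 hN.2.2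
    have e : Syr^[n + l] N - ((x + 3 ^ n * w : ℕ) : ℤ) - (Syr^[n + l] N - ((x + 3 ^ n * v : ℕ) : ℤ)) =
        3 ^ n * (v - w) := by
      push_cast
      ring
    rw [e, pow_add] at h1
    have h2 : (3 : ℤ) ^ l ∣ (v : ℤ) - w := (mul_dvd_mul_iff_left h3n.ne').1 h1
    obtain ⟨t, ht⟩ := h2
    have hv' : (v : ℤ) < 3 ^ l := by exact_mod_cast hv
    have hw' : (w : ℤ) < 3 ^ l := by exact_mod_cast hw
    have h5 : (3 : ℤ) ^ l * t < 3 ^ l * 1 := by linarith [Int.natCast_nonneg w]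
    have h6 : (3 : ℤ) ^ l * (-1) < 3 ^ l * t := by linarith [Int.natCast_nonneg v]
    have h7 : t < 1 := lt_of_mul_lt_mul_left h5 h3l.le
    have h8 : -1 < t := lt_of_mul_lt_mul_left h6 h3l.le
    have h9 : t = 0 := by omega
    rw [h9, mul_zero] at ht
    omega

/-- the density, uniformly in the interval -/
theorem count_dens (n l x : ℕ) (hx : x < 3 ^ n) {ε : ℝ} (hε : 0 < ε) : ∃ K : ℝ, ∀ a b : ℤ, a ≤ b →
    |(((Ico a b).filter fun N => N % 2 = 1 ∧ (3 : ℤ) ^ n ∣ Syr^[n + l] N - x).card : ℝ) -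
      dens n x * (((b - a : ℤ) : ℝ) / 2)| ≤ ε * ((b - a : ℤ) : ℝ) + K := by
  have hlt : ∀ v ∈ range (3 ^ l), x + 3 ^ n * v < 3 ^ (n + l) := by
    intro v hv
    rw [mem_range] at hv
    rw [pow_add]
    calc x + 3 ^ n * v < 3 ^ n + 3 ^ n * v := by omega
      _ = 3 ^ n * (v + 1) := by ring
      _ ≤ 3 ^ n * 3 ^ l := Nat.mul_le_mul_left _ hv
  have h3l : (0 : ℝ) < 3 ^ l := by positivity
  have hex : ∀ v ∈ range (3 ^ l), ∃ K : ℝ, ∀ a b : ℤ, a ≤ b →
      |((ES (n + l) ((x + 3 ^ n * v : ℕ) : ℤ) a b).card : ℝ) -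
        dens (n + l) (x + 3 ^ n * v) * (((b - a : ℤ) : ℝ) / 2)| ≤
      ε / 3 ^ l * ((b - a : ℤ) : ℝ) + K := fun v hv => ES_dens (n + l) (x + 3 ^ n * v) (hlt v hv) (by positivity)
  choose! K hK using hex
  refine ⟨∑ v ∈ range (3 ^ l), K v, fun a b hab => ?_⟩
  rw [count_eq, ← dens_sum n l x]
  push_cast
  rw [sum_mul, ← sum_sub_distrib]
  refine (abs_sum_le_sum_abs _ _).trans ?_
  have h1 := sum_le_sum fun v hv => hK v hv a b hab
  push_cast at h1
  refine h1.trans (le_of_eq ?_)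
  rw [sum_add_distrib, sum_const, card_range, nsmul_eq_mul]
  push_cast
  congr 1
  field_simp

end Pool.Agent.Y966.SY
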