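import Pool.Agent.Y966.SY.Dens
import Pool.Agent.Y966.LD.Tilt

/-!
Fourier coefficients of the law of the Syracuse iterates modulo `3 ^ n`.
-/

set_option autoImplicit false
set_option linter.unusedVariables false

namespace Pool.Agent.Y966.SY

open Finset Filter Topology Complex

theorem geom_exp {M : ℕ} (hM : 0 < M) (k : ℤ) :
    ∑ ξ ∈ range M, Complex.exp (2 * Real.pi * I * ξ * k / M) =
      if (M : ℤ) ∣ k then (M : ℂ) else 0 := by
  have hM0 : (M : ℂ) ≠ 0 := by exact_mod_cast hM.ne'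
  have hpi : (Real.pi : ℂ) ≠ 0 := by exact_mod_cast Real.pi_ne_zero
  set ζ : ℂ := Complex.exp (2 * Real.pi * I * k / M) with hζ
  have h1 : ∀ ξ : ℕ, Complex.exp (2 * Real.pi * I * ξ * k / M) = ζ ^ ξ := by
    intro ξ
    rw [hζ, ← Complex.exp_nat_mul]
    congr 1
    ring
  simp only [h1]
  have hζM : ζ ^ M = 1 := by
    rw [hζ, ← Complex.exp_nat_mul]
    rw [Complex.exp_eq_one_iff]
    refine ⟨k, ?_⟩
    field_simp
  split_ifs with h
  · obtain ⟨t, ht⟩ := h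
    have hζ1 : ζ = 1 := by
      rw [hζ, Complex.exp_eq_one_iff]
      refine ⟨t, ?_⟩
      rw [ht]
      push_cast
      field_simp
    rw [hζ1]
    simp
  · have hζ1 : ζ ≠ 1 := by
      intro hcon
      rw [hζ, Complex.exp_eq_one_iff] at hcon
      obtain ⟨t, ht⟩ := hcon
      apply h
      refine ⟨t, ?_⟩
      have h2 : (k : ℂ) = M * t := by
        field_simp at ht
        have h3 : (2 * Real.pi * I : ℂ) ≠ 0 := by simp [Real.pi_ne_zero]
        have h4 : (2 * Real.pi * I : ℂ) * k = (2 * Real.pi * I) * (M * t) := by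
          linear_combination (2 * Real.pi * I : ℂ) * ht
        exact mul_left_cancel₀ h3 h4
      exact_mod_cast h2
    have h5 := mul_geom_sum ζ M
    rw [hζM, sub_self] at h5
    rcases mul_eq_zero.1 h5 with h6 | h6
    · exact absurd (sub_eq_zero.1 h6) hζ1
    · exact h6

/-- the Fourier transform -/
noncomputable def chi (M : ℕ) (d : ℕ → ℝ) (ξ : ℕ) : ℂ :=
  ∑ x ∈ range M, (d x : ℂ) * Complex.exp (2 * Real.pi * I * ξ * x / M)

theorem parseval {M : ℕ} (hM : 0 < M) (d : ℕ → ℝ) :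
    ∑ ξ ∈ range M, ‖chi M d ξ‖ ^ 2 = M * ∑ x ∈ range M, d x ^ 2 := by
  have h1 : ∀ ξ : ℕ, ((‖chi M d ξ‖ ^ 2 : ℝ) : ℂ) = ∑ x ∈ range M, ∑ y ∈ range M,
      ((d x : ℂ) * d y) * Complex.exp (2 * Real.pi * I * ξ * (((x : ℤ) - (y : ℤ) : ℤ) : ℂ) / M) := by
    intro ξ
    rw [← Complex.normSq_eq_norm_sq, ← Complex.mul_conj]
    unfold chi
    rw [map_sum, sum_mul_sum]
    refine sum_congr rfl fun x _ => sum_congr rfl fun y _ => ?_
    rw [map_mul, Complex.conj_ofReal, ← Complex.exp_conj]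
    have e1 : (starRingEnd ℂ) (2 * Real.pi * I * ξ * y / M) = -(2 * Real.pi * I * ξ * y / M) := by
      simp only [map_div₀, map_mul, Complex.conj_I, Complex.conj_ofReal, map_natCast, map_ofNat]
      ring
    rw [e1]
    have e2 : Complex.exp (2 * Real.pi * I * ξ * (((x : ℤ) - (y : ℤ) : ℤ) : ℂ) / M) =
        Complex.exp (2 * Real.pi * I * ξ * x / M) * Complex.exp (-(2 * Real.pi * I * ξ * y / M)) := by
      rw [← Complex.exp_add]
      congr 1
      push_cast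
      ring
    rw [e2]
    ring
  have h2 : ((∑ ξ ∈ range M, ‖chi M d ξ‖ ^ 2 : ℝ) : ℂ) = ((M * ∑ x ∈ range M, d x ^ 2 : ℝ) : ℂ) := by
    rw [Complex.ofReal_sum]
    simp only [h1]
    rw [sum_comm]
    push_cast
    rw [mul_sum]
    refine sum_congr rfl fun x hx => ?_
    rw [sum_comm]
    have h3 : ∀ y ∈ range M, (∑ ξ ∈ range M, ((d x : ℂ) * d y) *
        Complex.exp (2 * Real.pi * I * ξ * (((x : ℤ) - (y : ℤ) : ℤ) : ℂ) / M)) =
        if y = x then (M : ℂ) * (d x) ^ 2 else 0 := by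
      intro y hy
      rw [← mul_sum, geom_exp hM]
      rw [mem_range] at hx hy
      by_cases hxy : y = x
      · subst hxy
        simp
        ring
      · rw [if_neg hxy, if_neg, mul_zero]
        intro hd
        apply hxy
        obtain ⟨t, ht⟩ := hd
        have hM' : (0 : ℤ) < M := by exact_mod_cast hM
        have hx' : (x : ℤ) < M := by exact_mod_cast hx
        have hy' : (y : ℤ) < M := by exact_mod_cast hy
        have h5 : (M : ℤ) * t < M * 1 := by linarith [Int.natCast_nonneg y]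
        have h6 : (M : ℤ) * (-1) < M * t := by linarith [Int.natCast_nonneg x]
        have h7 : t < 1 := lt_of_mul_lt_mul_left h5 hM'.le
        have h8 : -1 < t := lt_of_mul_lt_mul_left h6 hM'.le
        have h9 : t = 0 := by omega
        rw [h9, mul_zero] at ht
        omega
    have h4 := sum_congr rfl h3
    push_cast at h4
    rw [h4, sum_ite_eq' (range M) x]
    rw [if_pos hx]
  exact_mod_cast h2

/-- few large Fourier coefficients -/
theorem few_large {M : ℕ} (hM : 0 < M) (d : ℕ → ℝ) {t : ℝ} (ht : 0 < t) :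
    (((range M).filter fun ξ => t ≤ ‖chi M d ξ‖).card : ℝ) * t ^ 2 ≤ M * ∑ x ∈ range M, d x ^ 2 := by
  rw [← parseval hM]
  calc (((range M).filter fun ξ => t ≤ ‖chi M d ξ‖).card : ℝ) * t ^ 2
      = ∑ ξ ∈ (range M).filter fun ξ => t ≤ ‖chi M d ξ‖, t ^ 2 := by rw [sum_const, nsmul_eq_mul]
    _ ≤ ∑ ξ ∈ (range M).filter fun ξ => t ≤ ‖chi M d ξ‖, ‖chi M d ξ‖ ^ 2 := by
        refine sum_le_sum fun ξ hξ => ?_
        rw [mem_filter] at hξ
        exact pow_le_pow_left₀ ht.le hξ.2 2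
    _ ≤ _ := sum_le_sum_of_subset_of_nonneg (filter_subset _ _) fun ξ _ _ => by positivity

/-! ### final forms -/

/-- the density -/
noncomputable def dens (n x : ℕ) : ℝ := D n (x : ℤ) / 3 ^ n

theorem dens_nonneg (n x : ℕ) : 0 ≤ dens n x := div_nonneg (D_nonneg _ _) (by positivity)

theorem dens_lower {q : ℕ} (hq : 1 ≤ q) (n : ℕ) :
    (1 / (2 ^ q - 1) : ℝ) ^ n ≤ ∑ x ∈ range (3 ^ n), dens n x ^ q := by
  have h1 := moment_lower hq n
  have h2 : ∑ x ∈ range (3 ^ n), dens n x ^ q = (∑ x ∈ range (3 ^ n), D n (x : ℤ) ^ q) / (3 ^ n) ^ q := by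
    unfold dens
    rw [sum_div]
    refine sum_congr rfl fun x _ => ?_
    rw [div_pow]
  rw [h2, le_div_iff₀ (by positivity)]
  refine le_trans (le_of_eq ?_) h1
  rw [← pow_mul, mul_comm n q, pow_mul, ← mul_pow]
  congr 1
  ring

theorem dens_upper {q : ℕ} (hq : 2 ≤ q) {ε : ℝ} (hε : 0 < ε) : ∃ n₀ : ℕ, ∀ n : ℕ, n₀ ≤ n →
    ∑ x ∈ range (3 ^ n), dens n x ^ q ≤ Real.exp (ε * n) * (1 / (2 ^ q - 1) : ℝ) ^ n := by
  obtain ⟨C, hC, hup⟩ := moment_upper hq (show 0 < ε / 2 by positivity)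
  obtain ⟨n₀, hn₀⟩ := exists_nat_ge (2 * |Real.log C| / ε)
  refine ⟨n₀, fun n hn => ?_⟩
  have hn' : 2 * |Real.log C| / ε ≤ n := hn₀.trans (by exact_mod_cast hn)
  rw [div_le_iff₀ hε] at hn'
  have h2 : ∑ x ∈ range (3 ^ n), dens n x ^ q = (∑ x ∈ range (3 ^ n), D n (x : ℤ) ^ q) / (3 ^ n) ^ q := by
    unfold dens
    rw [sum_div]
    refine sum_congr rfl fun x _ => ?_
    rw [div_pow]
  have h2q : (0 : ℝ) < 2 ^ q - 1 := by
    have : (2 : ℝ) ≤ 2 ^ q := by
      calc (2 : ℝ) = 2 ^ 1 := by norm_num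
        _ ≤ 2 ^ q := pow_le_pow_right₀ (by norm_num) (by omega)
    linarith
  have h3 : (C * Real.exp (ε / 2 * n)) ≤ Real.exp (ε * n) := by
    have e : C = Real.exp (Real.log C) := (Real.exp_log hC).symm
    rw [e, ← Real.exp_add]
    apply Real.exp_le_exp.2
    have := le_abs_self (Real.log C)
    linarith
  rw [h2, div_le_iff₀ (by positivity)]
  refine (hup n).trans ?_
  have h4 : (3 ^ q / (2 ^ q - 1) : ℝ) ^ n = (1 / (2 ^ q - 1) : ℝ) ^ n * (3 ^ n) ^ q := by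
    rw [← pow_mul, mul_comm n q, pow_mul, ← mul_pow]
    congr 1
    ring
  rw [h4, ← mul_assoc]
  apply mul_le_mul_of_nonneg_right _ (by positivity)
  exact mul_le_mul_of_nonneg_right h3 (by positivity)

/-- the word `1 1 ... 1` is valid at `-1` -/
theorem D_neg_one (n : ℕ) : (3 / 2 : ℝ) ^ n ≤ D n (-1) := by
  have hW : ∀ n : ℕ, (Pool.Agent.H377R2.NK.Wp 3 (List.replicate n 1) : ℤ) = 3 ^ n - 2 ^ n := by
    intro n
    induction n with
    | zero => simp [Pool.Agent.H377R2.NK.Wp]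
    | succ n ih =>
      rw [List.replicate_succ, Pool.Agent.H377R2.NK.Wp]
      push_cast
      rw [ih, List.sum_replicate]
      simp only [smul_eq_mul, mul_one]
      ring
  have hmem : List.replicate n 1 ∈ Pool.Agent.H377R2.NK.VW 3 1 n (-1) := by
    rw [Pool.Agent.H377R2.NK.mem_VW]
    refine ⟨by simp, fun e he => ?_, ?_⟩
    · rw [List.eq_of_mem_replicate he]
      exact ⟨le_rfl, le_rfl⟩
    · rw [hW, List.sum_replicate]
      simp only [smul_eq_mul, mul_one]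
      push_cast
      exact ⟨-1, by ring⟩
  refine le_trans ?_ (le_D 1 n (-1))
  unfold Pool.Agent.Y966.NQ.DD
  refine le_trans (le_of_eq ?_)
    (single_le_sum (f := fun w => Pool.Agent.Y966.NQ.zw 3 (1 / 2) w)
      (fun w _ => Pool.Agent.Y966.NQ.zw_nonneg w) hmem)
  unfold Pool.Agent.Y966.NQ.zw Pool.Agent.Y966.NQ.th
  rw [List.sum_replicate, List.length_replicate]
  simp only [smul_eq_mul, mul_one]
  rw [← mul_pow]
  norm_num

theorem D_shift (n : ℕ) (x y : ℤ) : D n (x + 3 ^ n * y) = D n x := by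
  unfold D
  congr 1
  funext A
  exact_mod_cast Pool.Agent.Y966.NQ.DD_shift (p := 3) (z := 1 / 2) A n x y

theorem dens_max_lower (n : ℕ) : (1 / 2 : ℝ) ^ n ≤ dens n (3 ^ n - 1) := by
  unfold dens
  have h1 : ((3 ^ n - 1 : ℕ) : ℤ) = -1 + 3 ^ n * 1 := by
    have : 1 ≤ 3 ^ n := Nat.one_le_pow _ _ (by norm_num)
    push_cast [this]
    ring
  rw [h1, D_shift, le_div_iff₀ (by positivity), ← mul_pow]
  refine le_trans (le_of_eq ?_) (D_neg_one n)
  congr 1
  norm_num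

theorem dens_max {ε : ℝ} (hε : 0 < ε) : ∃ n₀ : ℕ, ∀ n : ℕ, n₀ ≤ n → ∀ x < 3 ^ n,
    dens n x ≤ Real.exp (ε * n) * (1 / 2 : ℝ) ^ n := by
  obtain ⟨q, hq⟩ := exists_nat_ge (2 / ε + 2)
  have hqε : 2 / ε ≤ q := by linarith
  have hq2 : 2 ≤ q := by
    have h2 : (0 : ℝ) < 2 / ε := by positivity
    have : (2 : ℝ) ≤ q := by linarith
    exact_mod_cast this
  obtain ⟨n₀, hn₀⟩ := dens_upper hq2 (show (0 : ℝ) < 1 by norm_num)
  refine ⟨n₀, fun n hn x hx => ?_⟩
  have h1 := hn₀ n hn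
  have h2 : dens n x ^ q ≤ ∑ x ∈ range (3 ^ n), dens n x ^ q :=
    single_le_sum (f := fun x => dens n x ^ q) (fun y _ => by have := dens_nonneg n y; positivity)
      (mem_range.2 hx)
  have h3 : (1 / (2 ^ q - 1) : ℝ) ≤ 1 / 2 ^ (q - 1) := by
    apply one_div_le_one_div_of_le (by positivity)
    obtain ⟨q', rfl⟩ : ∃ q', q = q' + 1 := ⟨q - 1, by omega⟩
    rw [Nat.add_sub_cancel, pow_succ]
    have : (1 : ℝ) ≤ 2 ^ q' := one_le_pow₀ (by norm_num)
    linarith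
  have h2q : (0 : ℝ) ≤ 1 / (2 ^ q - 1) := by
    have : (1 : ℝ) ≤ 2 ^ q := one_le_pow₀ (by norm_num)
    exact div_nonneg (by norm_num) (by linarith)
  have h4 : (1 / (2 ^ q - 1) : ℝ) ^ n ≤ (1 / 2 ^ (q - 1)) ^ n := pow_le_pow_left₀ h2q h3 n
  have hR : 0 ≤ Real.exp (ε * n) * (1 / 2 : ℝ) ^ n := by positivity
  refine le_of_pow_le_pow_left₀ (show q ≠ 0 by omega) hR ?_
  refine h2.trans (h1.trans ?_)
  have h5 : Real.exp (1 * n) * (1 / (2 ^ q - 1) : ℝ) ^ n ≤ Real.exp (1 * n) * (1 / 2 ^ (q - 1)) ^ n :=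
    mul_le_mul_of_nonneg_left h4 (Real.exp_pos _).le
  refine h5.trans ?_
  rw [mul_pow, ← Real.exp_nat_mul]
  have h6 : (1 / 2 ^ (q - 1) : ℝ) ^ n = 2 ^ n * ((1 / 2 : ℝ) ^ n) ^ q := by
    obtain ⟨q', rfl⟩ : ∃ q', q = q' + 1 := ⟨q - 1, by omega⟩
    rw [Nat.add_sub_cancel, pow_right_comm, ← mul_pow]
    congr 1
    rw [div_pow, one_pow, pow_succ]
    field_simp
  have h7 : (2 : ℝ) ^ n ≤ Real.exp (1 * n) := by
    rw [mul_comm, Real.exp_nat_mul]
    apply pow_le_pow_left₀ (by norm_num)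
    have := Real.add_one_le_exp (1 : ℝ)
    linarith
  rw [h6, ← mul_assoc]
  apply mul_le_mul_of_nonneg_right _ (by positivity)
  calc Real.exp (1 * n) * 2 ^ n ≤ Real.exp (1 * n) * Real.exp (1 * n) :=
        mul_le_mul_of_nonneg_left h7 (Real.exp_pos _).le
    _ = Real.exp (2 * n) := by rw [← Real.exp_add]; congr 1; ring
    _ ≤ Real.exp (q * (ε * n)) := by
        apply Real.exp_le_exp.2
        have h8 : 2 ≤ q * ε := by
          rwa [div_le_iff₀ hε] at hqε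
        have hn0 : (0 : ℝ) ≤ n := Nat.cast_nonneg n
        nlinarith

theorem fourier_few {δ ε : ℝ} (hε : 0 < ε) : ∃ n₀ : ℕ, ∀ n : ℕ, n₀ ≤ n →
    (((range (3 ^ n)).filter fun ξ => (3 : ℝ) ^ (-(δ * n)) ≤ ‖chi (3 ^ n) (dens n) ξ‖).card : ℝ) ≤
      (3 : ℝ) ^ ((2 * δ + ε) * n) := by
  have hl3 : 0 < Real.log 3 := Real.log_pos (by norm_num)
  obtain ⟨n₀, hn₀⟩ := dens_upper (q := 2) le_rfl (show (0 : ℝ) < ε * Real.log 3 by positivity)
  refine ⟨n₀, fun n hn => ?_⟩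
  have h1 := hn₀ n hn
  have h2 := few_large (M := 3 ^ n) (by positivity) (dens n) (t := (3 : ℝ) ^ (-(δ * n))) (by positivity)
  have h3 : ((3 ^ n : ℕ) : ℝ) * ∑ x ∈ range (3 ^ n), dens n x ^ 2 ≤ Real.exp (ε * Real.log 3 * n) := by
    calc ((3 ^ n : ℕ) : ℝ) * ∑ x ∈ range (3 ^ n), dens n x ^ 2
        ≤ ((3 ^ n : ℕ) : ℝ) * (Real.exp (ε * Real.log 3 * n) * (1 / (2 ^ 2 - 1) : ℝ) ^ n) :=
          mul_le_mul_of_nonneg_left h1 (by positivity)
      _ = Real.exp (ε * Real.log 3 * n) := by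
          have : ((3 ^ n : ℕ) : ℝ) * (1 / (2 ^ 2 - 1) : ℝ) ^ n = 1 := by
            push_cast
            rw [← mul_pow]
            norm_num
          calc _ = Real.exp (ε * Real.log 3 * n) * (((3 ^ n : ℕ) : ℝ) * (1 / (2 ^ 2 - 1) : ℝ) ^ n) := by
                ring
            _ = _ := by rw [this, mul_one]
  have h4 := h2.trans h3
  have h5 : ((3 : ℝ) ^ (-(δ * n))) ^ 2 = (3 : ℝ) ^ (-(2 * δ * n)) := by
    rw [← Real.rpow_natCast, ← Real.rpow_mul (by norm_num)]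
    congr 1
    push_cast
    ring
  have h6 : Real.exp (ε * Real.log 3 * n) = (3 : ℝ) ^ (ε * n) := by
    rw [Real.rpow_def_of_pos (by norm_num)]
    congr 1
    ring
  rw [h5, h6] at h4
  have h7 : (3 : ℝ) ^ ((2 * δ + ε) * n) = (3 : ℝ) ^ (ε * n) / (3 : ℝ) ^ (-(2 * δ * n)) := by
    rw [← Real.rpow_sub (by norm_num)]
    congr 1
    ring
  rw [h7, le_div_iff₀ (by positivity)]
  exact h4

end Pool.Agent.Y966.SY
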