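import Pool.Agent.Y966.CC.Moment

/-!
The iterates of the Syracuse map modulo powers of `3`: words and residue classes.
-/

set_option autoImplicit false
set_option linter.unusedVariables false

namespace Pool.Agent.Y966.SY

open Finset Pool.Agent.H320R2.PD Pool.Agent.H377R2.NK

/-- the Syracuse map on the odd integers -/
def Syr (N : ℤ) : ℤ := (3 * N + 1) / 2 ^ padicValInt 2 (3 * N + 1)

theorem Syr_eq {N M : ℤ} {v : ℕ} (h : 3 * N + 1 = 2 ^ v * M) (hM : M % 2 = 1) : Syr N = M := by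
  have hM0 : M ≠ 0 := by rintro rfl; norm_num at hM
  have h1 : padicValInt 2 (3 * N + 1) = v := by
    rw [h, padicValInt.mul (by positivity) hM0]
    have h2 : padicValInt 2 M = 0 := padicValInt.eq_zero_of_not_dvd (by
      intro h3
      have : (2 : ℤ) ∣ M := by exact_mod_cast h3
      omega)
    have h3 : padicValInt 2 ((2 : ℤ) ^ v) = v := by
      have e : ((2 : ℤ) ^ v) = ((2 ^ v : ℕ) : ℤ) := by push_cast; ring
      rw [e, padicValInt.of_nat, padicValNat.prime_pow]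
    rw [h2, h3, add_zero]
  unfold Syr
  rw [h1, h, Int.mul_ediv_cancel_left _ (by positivity)]

/-- one letter -/
theorem valid_cons {e : ℕ} {u : List ℕ} {y : ℤ} (he : 1 ≤ e)
    (h : (3 : ℤ) ^ (e :: u).length ∣ 2 ^ (e :: u).sum * y - Wp 3 (e :: u)) :
    ∃ b : ℤ, 3 * b + 1 = 2 ^ e * y ∧ b % 2 = 1 ∧ (3 : ℤ) ^ u.length ∣ 2 ^ u.sum * b - Wp 3 u ∧
      en 3 (e :: u) y = en 3 u b := by
  rw [List.length_cons, List.sum_cons, Wp] at h
  push_cast at h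
  have h1 : (2 : ℤ) ^ (e + u.sum) * y - (2 ^ u.sum + 3 * Wp 3 u) =
      2 ^ u.sum * (2 ^ e * y - 1) - 3 * Wp 3 u := by
    rw [pow_add]
    ring
  rw [h1] at h
  have h2 : (3 : ℤ) ∣ 2 ^ e * y - 1 := by
    have h3 : (3 : ℤ) ∣ 2 ^ u.sum * (2 ^ e * y - 1) - 3 * Wp 3 u :=
      (dvd_pow_self 3 (by omega)).trans h
    have h4 : (3 : ℤ) ∣ 2 ^ u.sum * (2 ^ e * y - 1) := by
      have := dvd_add h3 (Dvd.intro _ rfl : (3 : ℤ) ∣ 3 * (Wp 3 u : ℤ))
      rwa [sub_add_cancel] at this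
    exact (IsCoprime.pow_right (by norm_num : IsCoprime (3 : ℤ) 2)).dvd_of_dvd_mul_left h4
  obtain ⟨b, hb⟩ := h2
  have h5 : 2 ^ u.sum * (2 ^ e * y - 1) - 3 * (Wp 3 u : ℤ) = 3 * (2 ^ u.sum * b - Wp 3 u) := by
    rw [hb]
    ring
  rw [h5, pow_succ'] at h
  have h6 : (3 : ℤ) ^ u.length ∣ 2 ^ u.sum * b - Wp 3 u := (mul_dvd_mul_iff_left (by norm_num)).1 h
  refine ⟨b, by linarith, ?_, h6, ?_⟩
  · obtain ⟨e', rfl⟩ : ∃ e', e = e' + 1 := ⟨e - 1, by omega⟩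
    have : (2 : ℤ) ^ (e' + 1) * y = 2 * (2 ^ e' * y) := by ring
    rw [this] at hb
    omega
  · unfold en
    rw [List.length_cons, List.sum_cons, Wp]
    push_cast
    rw [h1, h5, pow_succ']
    exact Int.mul_ediv_mul_of_pos _ _ (by norm_num)

/-- the endpoint of a word -/
theorem word_syr (w : List ℕ) : ∀ y : ℤ, (∀ e ∈ w, 1 ≤ e) → y % 2 = 1 →
    (3 : ℤ) ^ w.length ∣ 2 ^ w.sum * y - Wp 3 w →
    Syr^[w.length] (en 3 w y) = y ∧ (en 3 w y) % 2 = 1 := by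
  induction w with
  | nil =>
    intro y _ hy _
    simp [en, Wp, hy]
  | cons e u ih =>
    intro y hw hy h
    obtain ⟨b, h1, h2, h3, h4⟩ := valid_cons (hw e (by simp)) h
    obtain ⟨g1, g2⟩ := ih b (fun e' he' => hw e' (by simp [he'])) h2 h3
    rw [h4, List.length_cons, Function.iterate_succ_apply', g1]
    exact ⟨Syr_eq h1 hy, g2⟩

/-- the word is determined by the endpoint -/
theorem word_inj (w : List ℕ) : ∀ (w' : List ℕ) (y y' : ℤ), w.length = w'.length →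
    (∀ e ∈ w, 1 ≤ e) → (∀ e ∈ w', 1 ≤ e) → y % 2 = 1 → y' % 2 = 1 →
    (3 : ℤ) ^ w.length ∣ 2 ^ w.sum * y - Wp 3 w → (3 : ℤ) ^ w'.length ∣ 2 ^ w'.sum * y' - Wp 3 w' →
    en 3 w y = en 3 w' y' → w = w' := by
  induction w with
  | nil =>
    intro w' y y' hl _ _ _ _ _ _ _
    exact (List.length_eq_zero_iff.mp hl.symm).symm
  | cons e u ih =>
    intro w' y y' hl hw hw' hy hy' h h' heq
    cases w' with
    | nil => simp at hl
    | cons e' u' =>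
      simp only [List.length_cons, Nat.add_right_cancel_iff] at hl
      have hS := (word_syr (e :: u) y hw hy h).1
      have hS' := (word_syr (e' :: u') y' hw' hy' h').1
      rw [← heq, List.length_cons, ← hl] at hS'
      rw [List.length_cons] at hS
      have hyy : y = y' := hS.symm.trans hS'
      obtain ⟨b, h1, h2, h3, h4⟩ := valid_cons (hw e (by simp)) h
      obtain ⟨b', h1', h2', h3', h4'⟩ := valid_cons (hw' e' (by simp)) h'
      have g := (word_syr u b (fun e' he' => hw e' (by simp [he'])) h2 h3).1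
      have g' := (word_syr u' b' (fun e' he' => hw' e' (by simp [he'])) h2' h3').1
      have hen : en 3 u b = en 3 u' b' := by rw [← h4, ← h4', heq]
      rw [hen, hl] at g
      have hbb : b = b' := g.symm.trans g'
      have hu := ih u' b b' hl (fun e' he' => hw e' (by simp [he']))
        (fun e' he' => hw' e' (by simp [he'])) h2 h2' h3 h3' hen
      have hy0 : y ≠ 0 := by
        rintro rfl
        norm_num at hy
      have hee : e = e' := by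
        rw [← hbb, h1, ← hyy] at h1'
        have := mul_right_cancel₀ hy0 h1'
        exact Int.pow_right_injective (by norm_num) this
      rw [hee, hu]

theorem en_valid {w : List ℕ} {y : ℤ} (h : (3 : ℤ) ^ w.length ∣ 2 ^ w.sum * y - Wp 3 w) :
    (3 : ℤ) ^ w.length * en 3 w y = 2 ^ w.sum * y - Wp 3 w := by
  unfold en
  exact Int.mul_ediv_cancel' (by exact_mod_cast h)

/-- the class of the integers with the word `w` (and final value in the class of `x` modulo `3 ^ n`) -/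
theorem exists_class {A n : ℕ} {x : ℤ} {w : List ℕ} (hw : w ∈ VW 3 A n x) :
    ∃ c : ℤ, ∀ N : ℤ, N ≡ c [ZMOD 2 ^ (w.sum + 1)] →
      ∃ y : ℤ, y % 2 = 1 ∧ (3 : ℤ) ^ n ∣ y - x ∧ (3 : ℤ) ^ w.length ∣ 2 ^ w.sum * y - Wp 3 w ∧
        N = en 3 w y := by
  rw [mem_VW] at hw
  obtain ⟨hl, he, hv⟩ := hw
  push_cast at hv
  have hodd : (3 : ℤ) ^ n % 2 = 1 := by
    have : Odd ((3 : ℤ) ^ n) := Odd.pow (by decide)
    exact Int.odd_iff.1 this
  -- an odd representative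
  obtain ⟨y₀, hy0, hyx⟩ : ∃ y₀ : ℤ, y₀ % 2 = 1 ∧ ∃ s : ℤ, y₀ = x + 3 ^ n * s := by
    rcases Int.emod_two_eq_zero_or_one x with h | h
    · refine ⟨x + 3 ^ n * 1, ?_, 1, rfl⟩
      omega
    · exact ⟨x, h, 0, by ring⟩
  obtain ⟨s, hs⟩ := hyx
  have hv0 : (3 : ℤ) ^ w.length ∣ 2 ^ w.sum * y₀ - Wp 3 w := by
    rw [hl, hs]
    have : (2 : ℤ) ^ w.sum * (x + 3 ^ n * s) - Wp 3 w =
        (2 ^ w.sum * x - Wp 3 w) + 3 ^ n * (2 ^ w.sum * s) := by ring
    rw [this]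
    exact dvd_add hv (Dvd.intro _ rfl)
  refine ⟨en 3 w y₀, fun N hN => ?_⟩
  obtain ⟨t, ht⟩ := (Int.modEq_iff_dvd.1 hN)
  refine ⟨y₀ + 3 ^ n * (2 * (-t)), ?_, ?_, ?_, ?_⟩
  · have : (3 : ℤ) ^ n * (2 * (-t)) = 2 * (3 ^ n * (-t)) := by ring
    omega
  · rw [hs]
    exact ⟨s + 2 * (-t), by ring⟩
  · have : (2 : ℤ) ^ w.sum * (y₀ + 3 ^ n * (2 * (-t))) - Wp 3 w =
        (2 ^ w.sum * y₀ - Wp 3 w) + 3 ^ n * (2 ^ w.sum * (2 * (-t))) := by ring
    rw [this]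
    rw [hl] at hv0 ⊢
    exact dvd_add hv0 (Dvd.intro _ rfl)
  · have h1 := en_shift (p := 3) (by norm_num) (w := w) y₀ (2 * (-t))
    rw [hl] at h1
    push_cast at h1
    rw [h1]
    have h2 : (2 : ℤ) ^ (w.sum + 1) * t = 2 ^ w.sum * (2 * t) := by ring
    rw [h2] at ht
    linarith

/-- the size of a class in an interval -/
theorem class_card (a b c : ℤ) (hab : a ≤ b) (M : ℤ) (hM : 0 < M) :
    ((b - a : ℤ) : ℝ) / M - 1 ≤ (((Ico a b).filter (fun N => N ≡ c [ZMOD M])).card : ℝ) := by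
  have h := Int.Ico_filter_modEq_card a b hM c
  have hMr : (0 : ℝ) < M := by exact_mod_cast hM
  have h1 : ((⌈((b - c : ℤ) : ℚ) / (M : ℚ)⌉ - ⌈((a - c : ℤ) : ℚ) / (M : ℚ)⌉ : ℤ) : ℝ) ≤
      (((Ico a b).filter (fun N => N ≡ c [ZMOD M])).card : ℝ) := by
    have h2 : ⌈((b - c : ℤ) : ℚ) / (M : ℚ)⌉ - ⌈((a - c : ℤ) : ℚ) / (M : ℚ)⌉ ≤
        (((Ico a b).filter (fun N => N ≡ c [ZMOD M])).card : ℤ) := by
      rw [h]
      push_cast
      exact le_max_left _ _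
    exact_mod_cast h2
  refine le_trans ?_ h1
  have h3 : (((b - c : ℤ) : ℚ) / (M : ℚ)) ≤ ⌈((b - c : ℤ) : ℚ) / (M : ℚ)⌉ := Int.le_ceil _
  have h4 : (⌈((a - c : ℤ) : ℚ) / (M : ℚ)⌉ : ℚ) < ((a - c : ℤ) : ℚ) / (M : ℚ) + 1 := Int.ceil_lt_add_one _
  have h3' : (((b - c : ℤ) : ℝ) / (M : ℝ)) ≤ ((⌈((b - c : ℤ) : ℚ) / (M : ℚ)⌉ : ℤ) : ℝ) := by
    exact_mod_cast h3
  have h4' : ((⌈((a - c : ℤ) : ℚ) / (M : ℚ)⌉ : ℤ) : ℝ) < ((a - c : ℤ) : ℝ) / (M : ℝ) + 1 := by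
    exact_mod_cast h4
  push_cast at h3' h4' ⊢
  have e : ((b : ℝ) - a) / M = (b - c) / M - (a - c) / M := by ring
  rw [e]
  linarith

/-- the integers of an interval with the given residue of the `n`-th Syracuse iterate -/
noncomputable def ES (n : ℕ) (x a b : ℤ) : Finset ℤ :=
  (Ico a b).filter fun N => N % 2 = 1 ∧ (3 : ℤ) ^ n ∣ Syr^[n] N - x

open scoped Classical in
/-- LOWER BOUND -/
theorem ES_lower (A n : ℕ) (x a b : ℤ) (hab : a ≤ b) :
    ((b - a : ℤ) : ℝ) / (2 * 3 ^ n) * Pool.Agent.Y966.NQ.DD 3 (1 / 2) A n x - ((VW 3 A n x).card : ℝ) ≤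
      ((ES n x a b).card : ℝ) := by
  have hex : ∀ w ∈ VW 3 A n x, ∃ c : ℤ, ∀ N : ℤ, N ≡ c [ZMOD 2 ^ (w.sum + 1)] →
      ∃ y : ℤ, y % 2 = 1 ∧ (3 : ℤ) ^ n ∣ y - x ∧ (3 : ℤ) ^ w.length ∣ 2 ^ w.sum * y - Wp 3 w ∧
        N = en 3 w y := fun w hw => exists_class hw
  choose! c hc using hex
  have hsub : ((VW 3 A n x).biUnion fun w => (Ico a b).filter fun N =>
      N ≡ c w [ZMOD 2 ^ (w.sum + 1)]) ⊆ ES n x a b := by
    intro N hN
    rw [mem_biUnion] at hN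
    obtain ⟨w, hw, hN⟩ := hN
    rw [mem_filter] at hN
    obtain ⟨y, h1, h2, h3, h4⟩ := hc w hw N hN.2
    rw [mem_VW] at hw
    obtain ⟨g1, g2⟩ := word_syr w y (fun e he => (hw.2.1 e he).1) h1 h3
    rw [ES, mem_filter]
    refine ⟨hN.1, ?_, ?_⟩
    · rw [h4]
      exact g2
    · rw [h4, ← hw.1, g1]
      rw [← hw.1] at h2
      exact h2
  have hdisj : ∀ w ∈ VW 3 A n x, ∀ w' ∈ VW 3 A n x, w ≠ w' →
      Disjoint ((Ico a b).filter fun N => N ≡ c w [ZMOD 2 ^ (w.sum + 1)])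
        ((Ico a b).filter fun N => N ≡ c w' [ZMOD 2 ^ (w'.sum + 1)]) := by
    intro w hw w' hw' hne
    rw [disjoint_left]
    intro N hN hN'
    rw [mem_filter] at hN hN'
    obtain ⟨y, h1, h2, h3, h4⟩ := hc w hw N hN.2
    obtain ⟨y', h1', h2', h3', h4'⟩ := hc w' hw' N hN'.2
    rw [mem_VW] at hw hw'
    exact hne (word_inj w w' y y' (hw.1.trans hw'.1.symm) (fun e he => (hw.2.1 e he).1)
      (fun e he => (hw'.2.1 e he).1) h1 h1' h3 h3' (h4.symm.trans h4'))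
  have h1 := card_le_card hsub
  rw [card_biUnion hdisj] at h1
  have h2 : (∑ w ∈ VW 3 A n x, (((Ico a b).filter fun N =>
      N ≡ c w [ZMOD 2 ^ (w.sum + 1)]).card : ℝ)) ≤ ((ES n x a b).card : ℝ) := by exact_mod_cast h1
  refine le_trans ?_ h2
  have h3 : ∀ w ∈ VW 3 A n x, ((b - a : ℤ) : ℝ) / (2 * 3 ^ n) * Pool.Agent.Y966.NQ.zw 3 (1 / 2) w - 1 ≤
      (((Ico a b).filter fun N => N ≡ c w [ZMOD 2 ^ (w.sum + 1)]).card : ℝ) := by
    intro w hw
    refine le_trans (le_of_eq ?_) (class_card a b (c w) hab _ (by positivity))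
    rw [mem_VW] at hw
    unfold Pool.Agent.Y966.NQ.zw Pool.Agent.Y966.NQ.th
    rw [hw.1]
    push_cast
    have e1 : (3 * (1 - 1 / 2) / (1 / 2) : ℝ) = 3 := by norm_num
    rw [e1, pow_succ, one_div, inv_pow]
    field_simp
  have h4 := sum_le_sum h3
  rw [sum_sub_distrib, ← mul_sum] at h4
  refine le_trans (le_of_eq ?_) h4
  unfold Pool.Agent.Y966.NQ.DD
  simp

end Pool.Agent.Y966.SY
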